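import Pool.Agent.Helper32.AG.Goals

/-!
# Packet AG-N4
-/

set_option autoImplicit false

namespace Pool.Agent.Helper76.AG

open Pool.Agent.Helper32.AG

theorem eight (a : ℕ) (ha : 1 ≤ a) : 8 * a ^ 3 ≤ 9 ^ a := by
  induction a, ha using Nat.le_induction with
  | base => norm_num
  | succ n hn ih =>
    have h1 : 8 * (n + 1) ^ 3 ≤ 9 * (8 * n ^ 3) := by
      nlinarith [Nat.mul_le_mul hn hn, Nat.mul_le_mul hn (Nat.mul_le_mul hn hn)]
    calc 8 * (n + 1) ^ 3 ≤ 9 * (8 * n ^ 3) := h1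
      _ ≤ 9 * 9 ^ n := Nat.mul_le_mul_left 9 ih
      _ = 9 ^ (n + 1) := by ring

theorem four (a c : ℕ) (ha : 1 ≤ a) : 4 * a ^ 3 * (c + 2) ≤ 9 ^ (a * (c + 1)) := by
  induction c with
  | zero =>
    have := eight a ha
    simp only [zero_add, mul_one]
    omega
  | succ n ih =>
    have h9 : 9 ≤ 9 ^ a := by
      calc 9 = 9 ^ 1 := by norm_num
        _ ≤ 9 ^ a := Nat.pow_le_pow_right (by norm_num) ha
    calc 4 * a ^ 3 * (n + 1 + 2) ≤ 4 * a ^ 3 * (n + 2) * 9 := by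
          have : n + 1 + 2 ≤ (n + 2) * 9 := by omega
          calc 4 * a ^ 3 * (n + 1 + 2) ≤ 4 * a ^ 3 * ((n + 2) * 9) := Nat.mul_le_mul_left _ this
            _ = 4 * a ^ 3 * (n + 2) * 9 := by ring
      _ ≤ 9 ^ (a * (n + 1)) * 9 ^ a := Nat.mul_le_mul ih h9
      _ = 9 ^ (a * (n + 1 + 1)) := by rw [← pow_add]; congr 1

theorem nine (n : ℕ) : n + 3 ≤ 9 ^ (n + 1) := by
  induction n with
  | zero => norm_num
  | succ m ih =>
    calc m + 1 + 3 ≤ 9 * (m + 3) := by omega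
      _ ≤ 9 * 9 ^ (m + 1) := Nat.mul_le_mul_left 9 ih
      _ = 9 ^ (m + 1 + 1) := by ring

theorem logb (p : ℕ) (hp : p.Prime) (h2 : p ≠ 2) : ∃ x : ℕ, 1 ≤ x ∧ p ≤ 3 ^ x ∧ 9 * x ≤ p ^ 2 := by
  have h3 : 3 ≤ p := by
    have := hp.two_le
    omega
  have h4 : p ≠ 4 := by
    rintro rfl
    revert hp
    decide
  have hle : p ≤ 3 ^ Nat.clog 3 p := Nat.le_pow_clog (by norm_num) p
  have hlt : 3 ^ (Nat.clog 3 p).pred < p := Nat.pow_pred_clog_lt_self (by norm_num) (by omega)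
  generalize Nat.clog 3 p = x at hle hlt
  match x with
  | 0 => simp at hle; omega
  | 1 => exact ⟨1, le_refl _, hle, by nlinarith⟩
  | 2 =>
    refine ⟨2, by norm_num, hle, ?_⟩
    have : 3 < p := by simpa using hlt
    have h5 : 5 ≤ p := by omega
    nlinarith
  | n + 3 =>
    refine ⟨n + 3, by omega, hle, ?_⟩
    have h1 : 3 ^ (n + 2) < p := by simpa using hlt
    calc 9 * (n + 3) ≤ 9 * 9 ^ (n + 1) := Nat.mul_le_mul_left 9 (nine n)
      _ = (3 ^ (n + 2)) ^ 2 := by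
        rw [← pow_mul, show (9 : ℕ) = 3 ^ 2 by norm_num, ← pow_mul, ← pow_add]
        congr 1
        ring
      _ ≤ p ^ 2 := Nat.pow_le_pow_left h1.le 2

/-- **Packet AG-N4**. -/
theorem n4 : N4Stmt := by
  intro p a b r hp h2 ha hb h
  obtain ⟨x, hx1, hpx, h9x⟩ := logb p hp h2
  obtain ⟨c, rfl⟩ : ∃ c, b = c + 2 := ⟨b - 2, by omega⟩
  set Q := p ^ a with hQ
  have hQ3 : 3 ≤ Q := by
    have h3 : 3 ≤ p := by
      have := hp.two_le
      omega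
    calc 3 ≤ p := h3
      _ = p ^ 1 := (pow_one p).symm
      _ ≤ p ^ a := Nat.pow_le_pow_right (by omega) ha
  have e1 : p ^ (2 * a * (c + 2)) = Q ^ (2 * (c + 1)) * Q ^ 2 := by
    rw [hQ, ← pow_mul, ← pow_mul, ← pow_add]
    congr 1
    ring
  have hN : Q ^ (2 * (c + 1)) ≤ 2 * a ^ 2 * r := by
    by_contra hlt
    push Not at hlt
    rw [e1] at h
    have hQ1 : (Q - 1) ^ 2 < Q ^ 2 := Nat.pow_lt_pow_left (by omega) (by norm_num)
    have hQ4 : 1 ≤ (Q - 1) ^ 2 := Nat.one_le_pow _ _ (by omega)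
    have hQ5 : 0 < Q ^ (2 * (c + 1)) := by positivity
    have h5 : r * (2 * a ^ 2 * (Q - 1) ^ 2) + 1 ≤ Q ^ (2 * (c + 1)) * (Q - 1) ^ 2 := by
      calc r * (2 * a ^ 2 * (Q - 1) ^ 2) + 1 ≤ r * (2 * a ^ 2 * (Q - 1) ^ 2) + (Q - 1) ^ 2 := by
            omega
        _ = (2 * a ^ 2 * r + 1) * (Q - 1) ^ 2 := by ring
        _ ≤ Q ^ (2 * (c + 1)) * (Q - 1) ^ 2 := Nat.mul_le_mul_right _ hlt
    have h6 : Q ^ (2 * (c + 1)) * (Q - 1) ^ 2 < Q ^ (2 * (c + 1)) * Q ^ 2 :=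
      Nat.mul_lt_mul_of_pos_left hQ1 hQ5
    omega
  have h7 : 2 * a ^ 2 * (2 * a * (c + 2) * x) ≤ 2 * a ^ 2 * r := by
    calc 2 * a ^ 2 * (2 * a * (c + 2) * x) = 4 * a ^ 3 * (c + 2) * x := by ring
      _ ≤ 9 ^ (a * (c + 1)) * x := Nat.mul_le_mul_right x (four a c ha)
      _ ≤ 9 ^ (a * (c + 1)) * x ^ (a * (c + 1)) := by
        refine Nat.mul_le_mul_left _ ?_
        calc x = x ^ 1 := (pow_one x).symm
          _ ≤ x ^ (a * (c + 1)) := Nat.pow_le_pow_right hx1 (Nat.mul_pos ha (by omega))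
      _ = (9 * x) ^ (a * (c + 1)) := (mul_pow _ _ _).symm
      _ ≤ (p ^ 2) ^ (a * (c + 1)) := Nat.pow_le_pow_left h9x _
      _ = Q ^ (2 * (c + 1)) := by
        rw [hQ, ← pow_mul, ← pow_mul]
        congr 1
        ring
      _ ≤ 2 * a ^ 2 * r := hN
  have h8 : 2 * a * (c + 2) * x ≤ r := Nat.le_of_mul_le_mul_left h7 (by positivity)
  calc p ^ (2 * a * (c + 2)) ≤ (3 ^ x) ^ (2 * a * (c + 2)) := Nat.pow_le_pow_left hpx _
    _ = 3 ^ (2 * a * (c + 2) * x) := by rw [← pow_mul]; congr 1; ring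
    _ ≤ 3 ^ r := Nat.pow_le_pow_right (by norm_num) h8

end Pool.Agent.Helper76.AG
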